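import Mathlib
import Pool.Agent.P.MP_fafcbd_gt.Core

namespace Pool.Agent.Results.MP_fafcbd_gt.Counterexample

open Pool.Agent.P.MP_fafcbd_gt

/-- A countably compact Hausdorff space such that, for every linear order on its points, some
non-empty closed set has no least element or has no greatest element. -/
theorem result : ∃ (Y : Type) (_ : TopologicalSpace Y), T2Space Y ∧ CountablyCompactSpace Y ∧
    ∀ (_ : LinearOrder Y), ∃ C : Set Y, IsClosed C ∧ C.Nonempty ∧
      ((¬ ∃ a, IsLeast C a) ∨ ¬ ∃ a, IsGreatest C a) := by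
  refine ⟨X, top, t2, countablyCompact, fun _ => ?_⟩
  obtain ⟨F, h1, h2, h3⟩ := core
  exact ⟨F, (isClosed_iff F).2 h1, h2, h3⟩

end Pool.Agent.Results.MP_fafcbd_gt.Counterexample
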